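import Pool.Agent.L0h51.AB.Lam

/-!
# MP_07b2d0_nt: the optimal constants `c(S)` with `h_F(A) ≤ c(S) dim A` have a limit law as the base `S` varies, for
# the families of one parameter with three rational poles

The constant `c(S, g)` of the question is studied here as a function of the base `S = Spec ℤ[1 / 2N]`, uniformly in the
dimension `g`, for all products of Weil restrictions `Res_{L/ℚ} E` from ALL number fields `L` of the elliptic curves `E`
in a family of one parameter: let `J = A / B` be a rational function over `ℚ` in lowest terms with (at least) three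
rational poles, which are moved to `0`, `1` and `∞` by a change of the parameter. For `t ∈ ℚ` we consider all number
fields `L` and all elliptic curves `E` over `L` of invariant `J(t)` (all twists) with good reduction outside of `2N`, and
all products `A = ∏ (Res_{L_i/ℚ} E_i) ^ (e_i)`, of dimension `∑ e_i [L_i : ℚ]`. If such an `A` extends to an abelian
scheme over `Spec ℤ[1 / 2N]`, then the `E_i` have good reduction outside of `2N` (Néron-Ogg-Shafarevich; also
`N_A = N(f_E) D_L ^ 2`, Milne), and `h_F(A) = ∑ e_i [L_i : ℚ] h_F(E_i)`. For the family of Legendre all invariants which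
occur are invariants of elliptic schemes over `ℤ[1 / 2N]` (part 5), so that the constant is the optimal constant for the
abelian schemes over `Spec ℤ[1 / 2N]`.

`T A B N` is the set of the parameters `t` which occur over `N`, and `best A B N` is the optimal constant: the least
`y ≥ 0` such that `h_F(A) ≤ y dim A` for all these `A`.

Proof. At a prime `p` outside of a fixed finite set which divides the numerator of `t`, of `t - 1` or the denominator of
`t` the value `J(t)` has a pole, so there is no curve of invariant `J(t)` with good reduction above `p`. Conversely, if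
`J(t)` is integral outside of `2N`, a Legendre curve over the field of its parameter has good reduction outside of `2N`.
So `t ∈ T A B N` if and only if a modulus `m(t)` divides `N`. By the bounds for the number of the triples
`a + b = c` of radical at most `X` of ALL heights (`TH867.SB.all_heights`, `D X ^ (2/3 + ε)`) and with radical dividing `N`
(`TH867.SB.by_radical`) the moduli are sparse, and all moments of the number of the moduli dividing `N` are bounded: a
`k`-tuple of moduli with the least common multiple `l` and the largest member `m` satisfies `l = m q`, `q ≤ m ^ (k - 1)`,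
and there are at most `l ^ ε` of them for a given `l`. The heights are at most `exp (3000 (1 + log X) ^ 6)`
(`TH867.SM.height_le`, proved by linear forms in logarithms), so that the weights grow slowly. The optimal constant is
unbounded as the modular invariant takes all values on the upper half plane (`L0h51.AB.Surj`).
-/

set_option autoImplicit false

namespace Pool.Agent.Results.MP_07b2d0_nt.AlmostAllBases

open Pool.Agent.L0h51.AB Filter Topology Polynomial

/-- Let `J = A / B` be in lowest terms with poles at `0`, `1` and `∞`.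

**(1)** The set `T(N)` of the parameters over `N` is finite and has a limit law: there is a probability `μ` on the finite
subsets `Φ` of `ℚ` such that `(1 / X) ∑_{N ≤ X} Ψ(T(N))` tends to `∑ μ(Φ) Ψ(Φ)` for all functions `Ψ` with
`|Ψ(Φ)| ≤ K (1 + ∑_{t ∈ Φ} log (3 + h(t))) ^ k` for some `k` and `K`, where `h` is the logarithmic height. (So the density
of the `N` for which `T(N)` has any given property exists, and all moments of the number of the parameters converge.)

**(2)** The optimal constant `c(N)`, the least `y ≥ 0` such that `h_F(A) ≤ y dim A` for all `A` over `N`, exists for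
all `N`. It has a limit law: for every set `U` of real numbers the density of the `N` with `c(N) ∈ U` exists; the density
of the `N` with `c(N) ≤ y` is less than `1` for every `y`; all moments of `log (1 + c(N))` converge.

**(3)** There is `C` such that for all `0 < ε ≤ 1` and ALL `X`: for all but `ε X` of the `N ≤ X` one has
`h_F(A) ≤ exp (C (1 + log (1 / ε)) ^ 6) dim A` for all `A` over `N`, of all dimensions.

**(4)** `T(p) = T(1)` for all but `C_ε X ^ (2/3 + ε)` of the primes `p ≤ X`.

**(5)** All of this holds for the family of Legendre, `J = 256 (t² - t + 1)³ / (t² (t - 1)²)`. Here `T(N)` is the set of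
the `t ≠ 0, 1` for which the curve `y² = x (x - 1) (x - t)` over `ℚ` itself has good reduction outside of `2N`, and
`T(1) = {-1, 2, 1/2}`. -/
theorem result :
    (∀ A B : ℤ[X], ThreePoles A B →
      ((∀ N, 0 < N → (T A B N).Finite) ∧
        ∃ μ : Finset ℚ → ℝ, (∀ Φ, 0 ≤ μ Φ) ∧ HasSum μ 1 ∧
          ∀ (k : ℕ) (K : ℝ) (Ψ : Set ℚ → ℝ),
            (∀ Φ : Finset ℚ, |Ψ Φ| ≤ K * (1 + ∑ t ∈ Φ, size t) ^ k) →
            Summable (fun Φ : Finset ℚ => μ Φ * Ψ Φ) ∧
            Tendsto (fun X : ℕ => (∑ N ∈ Finset.Icc 1 X, Ψ (T A B N)) / X) atTop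
              (𝓝 (∑' Φ : Finset ℚ, μ Φ * Ψ Φ))) ∧
      ((∀ N, 0 < N → 0 ≤ best A B N ∧ Bounded A B N (best A B N)) ∧
        (∀ U : Set ℝ, ∃ d : ℝ, Tendsto (fun X : ℕ =>
          ({N : ℕ | 1 ≤ N ∧ N ≤ X ∧ best A B N ∈ U}.ncard : ℝ) / X) atTop (𝓝 d)) ∧
        (∀ y : ℝ, ∃ d : ℝ, d < 1 ∧ Tendsto (fun X : ℕ =>
          ({N : ℕ | 1 ≤ N ∧ N ≤ X ∧ best A B N ≤ y}.ncard : ℝ) / X) atTop (𝓝 d)) ∧
        (∀ k : ℕ, ∃ M : ℝ, Tendsto (fun X : ℕ =>
          (∑ N ∈ Finset.Icc 1 X, Real.log (1 + best A B N) ^ k) / X) atTop (𝓝 M))) ∧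
      (∃ C : ℝ, 0 < C ∧ ∀ ε : ℝ, 0 < ε → ε ≤ 1 → ∀ X : ℕ,
        ({N : ℕ | 1 ≤ N ∧ N ≤ X ∧
          ¬ Bounded A B N (Real.exp (C * (1 + Real.log (1 / ε)) ^ 6))}.ncard : ℝ) ≤ ε * X) ∧
      (∀ ε : ℝ, 0 < ε → ∃ C : ℝ, 0 < C ∧ ∀ X : ℕ,
        ({p : ℕ | p.Prime ∧ p ≤ X ∧ T A B p ≠ T A B 1}.ncard : ℝ) ≤ C * (X : ℝ) ^ (2 / 3 + ε))) ∧
    ThreePoles legA legB ∧
    (∀ N, T legA legB N = {t : ℚ | t ≠ 0 ∧ t ≠ 1 ∧ GoodOutside (2 * N) (legendre t)}) ∧
    T legA legB 1 = {-1, 2, 1 / 2} := by
  refine ⟨fun A B h => ⟨h.law, ⟨fun N hN => h.best_spec hN, fun U => ?_, fun y => ?_,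
    h.best_moments⟩, ?_, h.primes⟩, leg_three, leg_T, leg_one⟩
  · obtain ⟨d, hd⟩ := h.best_law U
    exact ⟨d, hd.congr fun X => (ncard_prop _ X).symm⟩
  · obtain ⟨d, hd1, hd⟩ := h.unbounded y
    exact ⟨d, hd1, hd.congr fun X => (ncard_prop _ X).symm⟩
  · obtain ⟨C, hC, h1⟩ := h.tail
    refine ⟨C, hC, fun ε hε hε1 X => ?_⟩
    have h2 := h1 ε hε hε1 X
    rcases Nat.eq_zero_or_pos X with hX | hX
    · subst hX
      have h3 : {N : ℕ | 1 ≤ N ∧ N ≤ 0 ∧
          ¬ Bounded A B N (Real.exp (C * (1 + Real.log (1 / ε)) ^ 6))} = ∅ := by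
        ext N
        constructor
        · rintro ⟨h3, h4, -⟩
          exact absurd h3 (by omega)
        · intro h3
          exact absurd h3 (Set.notMem_empty _)
      rw [h3, Set.ncard_empty]
      simp
    · have hX0 : (0 : ℝ) < X := by exact_mod_cast hX
      rw [← div_le_iff₀ hX0, ncard_prop]
      refine (prop_mono (fun N hN h3 => ?_) X).trans h2
      by_contra h4
      apply h3
      rw [bounded_iff]
      intro t ht τ hτ
      exact (bounded_iff.1 (h.best_spec hN).2 t ht τ hτ).trans (not_lt.1 h4)

end Pool.Agent.Results.MP_07b2d0_nt.AlmostAllBases
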