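import Pool.Agent.L0h51.HC.Tail

/-!
# MP_07b2d0_nt: the hyperelliptic curves with rational Weierstrass points over almost all bases `ℤ[1 / 2N]`

A hyperelliptic curve of genus `g` over `ℚ` all of whose `2g + 2` Weierstrass points are rational is isomorphic over
`ℚ̄` to a curve `y² = x (x - 1) ∏_{t ∈ Φ} (x - t)`, where `Φ` is a set of `2g - 1` rational numbers `t ≠ 0, 1`. At an
odd prime `p` it has potentially good reduction if and only if the Weierstrass points stay different modulo `p` for some
coordinate of the line over `ℚ` (and then the curve of this equation has good reduction at `p`). `H N` is the set of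
all these `Φ` for all the curves with good reduction outside of `2N`, of ALL genera; more generally, `H N` consists of the
points of all moduli spaces `M_{0, n}` over `ℤ[1 / 2N]`, where `n = |Φ| + 3`. The Jacobians are abelian schemes over
`ℤ[1 / 2N]` which are not of `GL₂`-type in general.

Proof. `Φ` is in `H N` if and only if all `t` and all quotients `s / t` of different elements of `Φ` are parameters of
Legendre curves with good reduction outside of `2N` (`HC.mem_H`), so `H N` is a function of the set of these parameters,
whose law was found in `AlmostAllBases`: it rests on the bounds for the number of the triples `a + b = c` of bounded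
radical of ALL heights (`TH867.SB`) and on linear forms in logarithms (`TH867.SM`). For the genus: `n` points are
different modulo `p` only if `n ≤ p + 1`, and the points `∞, 0, 1, 2, ..., n - 2` are different modulo all primes
`p ≥ n - 1`.
-/

set_option autoImplicit false

namespace Pool.Agent.Results.MP_07b2d0_nt.HyperellipticCurves

open Pool.Agent.L0h51.HC Filter Topology

open Classical in
/-- **(1)** The set `H N` is finite for all `N > 0` and has a limit law: there is a probability `ν` on the finite sets `W`
of finite sets of rational numbers such that `(1 / X) ∑_{N ≤ X} Ψ(H N)` tends to `∑ ν(W) Ψ(W)` for all functions `Ψ` with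
`|Ψ(W)| ≤ K (1 + ∑ log (3 + h(t))) ^ k` for some `k` and `K`, where the sum runs over the elements `t` of the union of
`W` and `h` is the logarithmic height. (So the density of the `N` for which `H N` has any given property exists.)

**(2)** All moments of the number of the members of `H N` with `n` elements converge, for every `n`.

**(3)** There is `C` such that for all `0 < ε ≤ 1` and ALL `X`: for all but at most `ε X` of the `N ≤ X` the elements of
all the members of `H N` have logarithmic height at most `exp (C (1 + log (1 / ε)) ^ 6)`.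

**(4)** `H N` has a member with `n` elements if and only if `N` is divisible by all odd primes `p ≤ n + 1`. So the largest
genus of the curves is `(p - 1) / 2`, where `p` is the least odd prime which does not divide `N`, and the density of the
`N` over which there is such a curve of genus `g` (`n = 2g - 1`) is the product of `1 / p` over the odd primes
`p ≤ 2g`. -/
theorem result :
    ((∀ N, 0 < N → (H N).Finite) ∧
      ∃ ν : Finset (Finset ℚ) → ℝ, (∀ W, 0 ≤ ν W) ∧ HasSum ν 1 ∧
        ∀ (k : ℕ) (K : ℝ) (Ψ : Set (Finset ℚ) → ℝ),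
          (∀ W : Finset (Finset ℚ),
            |Ψ W| ≤ K * (1 + ∑ t ∈ W.biUnion id, Real.log (3 + height t)) ^ k) →
          Summable (fun W : Finset (Finset ℚ) => ν W * Ψ W) ∧
          Tendsto (fun X : ℕ => (∑ N ∈ Finset.Icc 1 X, Ψ (H N)) / X) atTop
            (𝓝 (∑' W : Finset (Finset ℚ), ν W * Ψ W))) ∧
    (∀ n k : ℕ, ∃ M : ℝ, Tendsto (fun X : ℕ =>
      (∑ N ∈ Finset.Icc 1 X, ({Φ : Finset ℚ | Φ ∈ H N ∧ Φ.card = n}.ncard : ℝ) ^ k) / X)
      atTop (𝓝 M)) ∧
    (∃ C : ℝ, 0 < C ∧ ∀ ε : ℝ, 0 < ε → ε ≤ 1 → ∀ X : ℕ,
      ({N : ℕ | 1 ≤ N ∧ N ≤ X ∧ ¬ ∀ Φ ∈ H N, ∀ t ∈ Φ,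
        height t ≤ Real.exp (C * (1 + Real.log (1 / ε)) ^ 6)}.ncard : ℝ) ≤ ε * X) ∧
    (∀ N n : ℕ, (∃ Φ ∈ H N, Φ.card = n) ↔
      ∀ p : ℕ, p.Prime → p ≠ 2 → p ≤ n + 1 → p ∣ N) ∧
    (∀ n : ℕ, Tendsto (fun X : ℕ =>
      ({N : ℕ | 1 ≤ N ∧ N ≤ X ∧ ∃ Φ ∈ H N, Φ.card = n}.ncard : ℝ) / X) atTop
      (𝓝 (∏ p ∈ (Finset.range (n + 2)).filter (fun p => p.Prime ∧ p ≠ 2), ((p : ℝ))⁻¹))) :=
  ⟨⟨fun _ hN => finite_H hN, law⟩, moments, tail, fun _ n => card_iff n, fun n => by
    have h := genus_density n
    convert h using 3⟩

end Pool.Agent.Results.MP_07b2d0_nt.HyperellipticCurves
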