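import Mathlib
import Pool.Agent.L0h51.HG.Low

/-!
# The height bound in the effective Shafarevich conjecture grows at least like `(1/2) g log (g N)`

Let `S = Spec ℤ[1/N]` with `N` even. There are abelian schemes over `S` of every relative dimension `g` with stable Faltings
height at least `g ((1/2) log g - 4)`; so the constant `c (S, g)` of the conjecture is not bounded by a linear function
of `g`. For infinitely many squarefree even `N` there are for every `g` abelian schemes with stable Faltings height at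
least `g ((1/2) log (g N) + (K / 2) √(log N) / log log N - 4)`, for every `K < √(8/9) e ^ (59/30) = 6.73...`.

They are products of Weil restrictions `Res_{R_k / ℤ[1/N]} E_k`, `k = 0, 1, 2, ...`, where `R_k` is finite étale of rank
`2 ^ k`. From `E_k : y² = x (x² + a x + b)` over `R_k` one gets `R_{k+1} = R_k [s]`, `s² = b`, and
`E_{k+1} : y² = x (x² + (a + 6 s) x + 4 s (a + 2 s))`, the quotient of `E_k` by `(0, 0)`, moved so that a new point of
order two is at the origin. The map `x ↦ x + a + b / x` shows that `∫ ω ∧ ω̄` is halved by each step. The contributions of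
the places over `N` are found from the invariance of `max (|a| ^ 2, |b|)` at odd primes and from `|a| = 1`, `|b| ≤ 1` at `2`,
and the product formula for `b` and `a² - 4 b`. So the height of `Res E_k` is `2 ^ k (h (E_0) + (1/2) log 2 ^ k)` up to an error
of at most `2 ^ k (2/3) log 2`. For the second part `E_0` is the Frey curve of the abc-triples of the starting file
`Pool/Agent/W270/Szp`, with the area integral of `E_0` bounded in terms of the discriminant.
-/

set_option autoImplicit false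

namespace Pool.Agent.Results.MP_07b2d0_nt.SuperlinearInDimension

open Pool.Agent.L0h51.HG

theorem result :
    (∀ N : ℕ, N ≠ 0 → 2 ∣ N → ∀ g : ℕ, ∃ A : AbScheme N, A.dim = g ∧
      g * (Real.log g / 2 - 4) ≤ A.hF) ∧
    (∀ K : ℝ, 0 ≤ K → K < √(8 / 9) * Real.exp (59 / 30) → ∀ N₀ : ℕ, ∃ N : ℕ,
      N₀ < N ∧ Squarefree N ∧ 2 ∣ N ∧ ∀ g : ℕ, ∃ A : AbScheme N, A.dim = g ∧
        g * (Real.log (g * N) / 2 + K / 2 * √(Real.log N) / Real.log (Real.log N) - 4) ≤ A.hF) ∧
    ∀ (N : ℕ) (a b : ℤ), N ≠ 0 → 2 ∣ N → ¬ (2 : ℤ) ∣ a → b ≠ 0 → a ^ 2 - 4 * b ≠ 0 →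
      (∀ p : ℕ, p.Prime → (p : ℤ) ∣ b * (a ^ 2 - 4 * b) → p ∣ N) →
      (∀ g : ℕ, ∃ A : AbScheme N, A.dim = g ∧
        g * (height N (Base N) ⟨0, a, 0, b, 0⟩ + Real.log g / 2 - 5 / 3 * Real.log 2) ≤ A.hF) ∧
      ∀ k : ℕ, ∃ A : AbScheme N, A.dim = 2 ^ k ∧
        |A.hF - 2 ^ k * (height N (Base N) ⟨0, a, 0, b, 0⟩ + Real.log (2 ^ k) / 2)| ≤
          2 ^ k * (2 / 3 * Real.log 2) := by
  have hl2 := Real.log_two_lt_d9
  refine ⟨fun N hN h2N g => ?_, fun K hK0 hK N₀ => ?_, fun N a b hN h2N ha hb hab hpr => ⟨?_, ?_⟩⟩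
  · have hpr : ∀ p : ℕ, p.Prime → (p : ℤ) ∣ 2 * (3 ^ 2 - 4 * 2) → p ∣ N := by
      intro p hp h
      have h1 : p ∣ 2 := by
        norm_num at h
        exact_mod_cast h
      exact h1.trans h2N
    obtain ⟨A, h1, h2⟩ := exists_all (a := 3) (b := 2) hN h2N (by norm_num) (by norm_num)
      (by norm_num) hpr g
    have h3 := height_crude (a := 3) (b := 2) hN (by norm_num) (by norm_num)
    refine ⟨A, h1, le_trans ?_ h2⟩
    apply mul_le_mul_of_nonneg_left _ (Nat.cast_nonneg g)
    have h4 := add_le_add_left h3 (-(5 / 3 * Real.log 2))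
    linarith
  · obtain ⟨N, h1, h2, h3, a, b, c1, c2, c3, c4, c5⟩ := exists_base hK0 hK N₀
    have hN : N ≠ 0 := by omega
    refine ⟨N, h1, h2, h3, fun g => ?_⟩
    obtain ⟨A, h4, h5⟩ := exists_all hN h3 c1 c2 c3 c4 g
    refine ⟨A, h4, le_trans ?_ h5⟩
    rcases Nat.eq_zero_or_pos g with h0 | h0
    · rw [h0]
      simp
    · have hg : (0 : ℝ) < g := by exact_mod_cast h0
      have hN' : (0 : ℝ) < N := by exact_mod_cast Nat.pos_of_ne_zero hN
      rw [Real.log_mul hg.ne' hN'.ne']
      apply mul_le_mul_of_nonneg_left _ hg.le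
      linarith
  · exact exists_all hN h2N ha hb hab hpr
  · intro k
    obtain ⟨T⟩ := exists_tower hN h2N hb hab hpr k
    have hT := height_tower hN h2N ha hb hab hpr k T
    refine ⟨(AbScheme.nil N).add T.R T.ring T.alg T.etale T.finite T.free (@cu T.R T.ring T.x T.y)
      (level_curve hN h2N k T), ?_, ?_⟩
    · rw [AbScheme.dim_add, T.rank]
      rfl
    · have e : (AbScheme.nil N).hF = 0 := rfl
      rw [AbScheme.hF_add, e, add_zero, Real.log_pow]
      exact hT

end Pool.Agent.Results.MP_07b2d0_nt.SuperlinearInDimension
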